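import Pool.Agent.Run7.h377.SB.Sets

set_option autoImplicit false

/-!
# Record prime gaps at the values of bilinear maps on arbitrary sets modulo `p`, in small boxes

Write `f(x) = log x (log₂ x)² log₄ x / (log₃ x)²` for the record size of the prime-free intervals.  An
integer `n` is a centre modulo `p` if every integer within `κ f(p)` of `n` has a prime factor `≤ p ^ ε`;
so a centre `n > p ^ ε + κ f(p)` has no prime within `κ f(p)`.

For all large primes `p`, ARBITRARY sets `A ⊂ F_p` and `B`, a map `φ : B → F_p ^ r` for which no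
nontrivial linear combination of the coordinates takes one value more than `d` times, and ARBITRARY
functions `G` on `A` and `K` on `B`: whenever `I_1, …, I_r` are intervals of lengths `L_j`,
`p ^ ε ≤ L_j ≤ p`, with `|A| |B| (∏ L_j) ^ 2 ≥ p ^ (1 + 2 r + ε)`, then at least
`|A| |B| ∏ (L_j / p) p ^ (-ε)` pairs `(a, b)` are such that the classes
`a φ_j(b) + G_j(a) + K_j(b)` modulo `p` have representatives in `I_1, …, I_r` that are ALL centres.
Second part: the products `a b, a b², …, a b ^ r` for two arbitrary sets of residues.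

Proof: the covering sieve for families of vectors (`Pool.Agent.Y961.JR.critJ`, helper961, after
helper256), completion and the bilinear bound (helper825); new is the treatment of boxes whose volume
is a small power of `p`.
-/

namespace Pool.Agent.Results.MP_45ff98_nt.BilinearSetsInBoxes

open Finset

/-- The record scale `f(x) = log x (log₂ x)² log₄ x / (log₃ x)²` (iterated natural logarithms). -/
noncomputable def f (x : ℝ) : ℝ :=
  Real.log x * (Real.log (Real.log x)) ^ 2 * Real.log (Real.log (Real.log (Real.log x))) /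
    (Real.log (Real.log (Real.log x))) ^ 2

/-- Every integer within `κ f(p)` of `n` has a prime factor at most `p ^ ε`. -/
def Centre (κ ε : ℝ) (p : ℕ) (n : ℤ) : Prop :=
  ∀ t : ℤ, |(t : ℝ) - n| ≤ κ * f p → ∃ l : ℕ, l.Prime ∧ (l : ℝ) ≤ (p : ℝ) ^ ε ∧ (l : ℤ) ∣ t

/-- The residue class `x` has a representative in the interval `(M, M + L]` that is a centre. -/
def Hit (κ ε : ℝ) (p : ℕ) (x : ZMod p) (M : ℤ) (L : ℕ) : Prop :=
  ∃ n : ℤ, M < n ∧ n ≤ M + L ∧ (n : ZMod p) = x ∧ Centre κ ε p n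

/-- **Bilinear maps on arbitrary sets and record gaps in small boxes.** -/
theorem result (r : ℕ) (hr : 1 ≤ r) (ε : ℝ) (hε : 0 < ε) (hε1 : ε ≤ 1) :
    (∀ d : ℕ, ∃ κ : ℝ, 0 < κ ∧ ∃ P₀ : ℝ, ∀ (p : ℕ) [Fact p.Prime], P₀ ≤ p →
      ∀ (β : Type) (A : Finset (ZMod p)) (B : Finset β)
        (φ : β → Fin r → ZMod p) (G : ZMod p → Fin r → ZMod p) (K : β → Fin r → ZMod p),
      (∀ h : Fin r → ZMod p, h ≠ 0 → ∀ y, (B.filter fun b => ∑ j, h j * φ b j = y).card ≤ d) →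
      ∀ (M : Fin r → ℤ) (L : Fin r → ℕ), (∀ j, (p : ℝ) ^ ε ≤ L j ∧ L j ≤ p) →
      (p : ℝ) ^ (1 + 2 * r + ε) ≤ (A.card * B.card) * (∏ j, (L j : ℝ)) ^ 2 →
      ∃ g ⊆ A ×ˢ B, (A.card * B.card) * (∏ j, (L j : ℝ) / p) * (p : ℝ) ^ (-ε) ≤ g.card ∧
        ∀ w ∈ g, ∀ j, Hit κ ε p (w.1 * φ w.2 j + G w.1 j + K w.2 j) (M j) (L j)) ∧
    (∃ κ : ℝ, 0 < κ ∧ ∃ P₀ : ℝ, ∀ (p : ℕ) [Fact p.Prime], P₀ ≤ p →
      ∀ (A B : Finset (ZMod p)) (M : Fin r → ℤ) (L : Fin r → ℕ),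
      (∀ j, (p : ℝ) ^ ε ≤ L j ∧ L j ≤ p) →
      (p : ℝ) ^ (1 + 2 * r + ε) ≤ (A.card * B.card) * (∏ j, (L j : ℝ)) ^ 2 →
      ∃ g ⊆ A ×ˢ B, (A.card * B.card) * (∏ j, (L j : ℝ) / p) * (p : ℝ) ^ (-ε) ≤ g.card ∧
        ∀ w ∈ g, ∀ j : Fin r, Hit κ ε p (w.1 * w.2 ^ ((j : ℕ) + 1)) (M j) (L j)) := by
  constructor
  · intro d
    obtain ⟨κ, hκ, P₀, h⟩ := Pool.Agent.Run7.h377.SB.sets r hr d ε hε hε1
    refine ⟨κ, hκ, P₀, fun p _ hp β A B φ G K hd M L hL hbig => ?_⟩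
    obtain ⟨g, hg, hg1, hg2⟩ := h p hp β A B φ G K hd M L hL hbig
    exact ⟨g, hg, hg1, fun w hw j => ⟨_, Pool.Agent.N825.FC.rep_gt _ _, (hg2 w hw j).1,
      Pool.Agent.N825.FC.rep_cast _ _, (hg2 w hw j).2⟩⟩
  · obtain ⟨κ, hκ, P₀, h⟩ := Pool.Agent.Run7.h377.SB.sets r hr r ε hε hε1
    refine ⟨κ, hκ, P₀, fun p _ hp A B M L hL hbig => ?_⟩
    obtain ⟨g, hg, hg1, hg2⟩ := h p hp (ZMod p) A B (fun b j => b ^ ((j : ℕ) + 1)) (fun _ _ => 0)
      (fun _ _ => 0) (fun h hh y => Pool.Agent.Run7.h377.SB.pow_count p r B h hh y) M L hL hbig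
    refine ⟨g, hg, hg1, fun w hw j => ⟨_, Pool.Agent.N825.FC.rep_gt _ _, (hg2 w hw j).1, ?_,
      (hg2 w hw j).2⟩⟩
    rw [Pool.Agent.N825.FC.rep_cast]
    ring

end Pool.Agent.Results.MP_45ff98_nt.BilinearSetsInBoxes
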