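import Pool.Agent.Run7.h364.CW.Thm

/-!
# The length `(log x)²` is the exact threshold for random shifts, up to `O(log x)`

Schinzel's statement (Q1) says that for `x > 8` one of the numbers `x + 1, ..., x + (log x)²` is a prime. Here the differences
`1, ..., m` are replaced by `s 0, ..., s (m - 1)`, where every `s j` runs through a window `(b j, b j + q]` of its own (for
instance consecutive windows of length `q = N / log^a N`), and `m` is compared with `(log N)²` to within `O(log N)`; for
`N / 2 ≤ n ≤ N` this is the precision to which `(log n)²` agrees with `(log N)²`.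

* Above `(log N)² + K log N` shifts every `n ≤ N` has a prime among the `n + s j`; below `(log N)² - K log N` this fails for some
  `N / 2 ≤ n ≤ N`; both for all but a proportion `ε` of the vectors of shifts, `K = K(ε)`.
* At `(log N)² + A log N` shifts, any `A`, and so for Schinzel's length `(log N)²` itself, it fails for a positive proportion
  (at least `c(A)`) of the vectors of shifts.
* The number of the failures `n ≤ N` is `N exp(-m / log N)` up to a factor `K` for all `m ≤ (log N)² - K log N`.

Method: second moments over the vectors of shifts as in helper931's `MP_b0c12c_nt.RandomShifts` (which has the threshold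
`(1 ± ε) (log N)²` and the number of failures up to `N^ε`), here at the critical scale: the square mean of each weight is computed
to within `O(1 / (log N)²)`, so that the diagonal terms of the second moment are `exp(m / log N + O(1))`; the number of the
shifts prime to the product of the small primes is controlled to within `O(log N)`; the singular series of prime pairs enters
through an exponential moment which is `1 + o(1)` after the small primes have been removed, and bounded if they have not.
-/

set_option autoImplicit false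

namespace Pool.Agent.Results.MP_45ff98_nt.CriticalLength

open Finset

/-- The integers `1 ≤ n ≤ N` for which no `n + s j`, `j < m`, is a prime. -/
def failures {m : ℕ} (N : ℕ) (s : Fin m → ℕ) : Finset ℕ := (Icc 1 N).filter fun n => ∀ j, ¬ (n + s j).Prime

/-- The integers `N / 2 ≤ n ≤ N` for which no `n + s j`, `j < m`, is a prime. -/
def lateFailures {m : ℕ} (N : ℕ) (s : Fin m → ℕ) : Finset ℕ :=
  ((Icc 1 N).filter fun n => N ≤ 2 * n).filter fun n => ∀ j, ¬ (n + s j).Prime

open Classical in
/-- The largest `k ≤ m` for which there is an integer `1 ≤ n ≤ N` such that none of the `n + s j`, `0 ≤ j < k`, is a prime. -/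
noncomputable def longest {m : ℕ} (N : ℕ) (s : Fin m → ℕ) : ℕ :=
  Nat.findGreatest (fun k => ∃ n, 1 ≤ n ∧ n ≤ N ∧ ∀ j : Fin m, (j : ℕ) < k → ¬ (n + s j).Prime) m

/-- The vectors of shifts: `s j` is in the window `(b j, b j + q]`. There are `q ^ m` of them. -/
def shifts {m : ℕ} (q : ℕ) (b : Fin m → ℕ) : Finset (Fin m → ℕ) := Fintype.piFinset fun j => Ioc (b j) (b j + q)

/-- Let `T`, `a` and `ε > 0` be given. There is `K ≥ 1` such that for all large `N`, all `N / log^a N ≤ q ≤ N`, all `m` and all
windows `(b j, b j + q]`, `j < m`, with `b j ≤ T N` the following holds for all but at most `ε q^m` of the `q^m` vectors `s` of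
shifts `s j ∈ (b j, b j + q]`.

**(1)** If `m ≤ log² N - K log N`, then the number of the `n ≤ N` for which no `n + s j` is a prime is at most
`K N exp(-m / log N)`, and already `N exp(-m / log N) / K` of these `n` are `≥ N / 2`.

**(2)** If `m ≥ log² N + K log N`, then for every `1 ≤ n ≤ N` some `n + s j` is a prime.

**(3)** If `m ≥ log² N + K log N`, then the largest `k ≤ m` for which some `n ≤ N` has no prime among `n + s 0, ..., n + s (k - 1)`
differs from `log² N` by at most `K log N`.

**(4)** For every real `A` there is `c > 0` such that for all large `N`, all such `q`, windows and all `m ≤ log² N + A log N`, for at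
least `c q^m` of the vectors `s` there is `N / 2 ≤ n ≤ N` such that no `n + s j`, `j < m`, is a prime. -/
theorem result (T a : ℕ) (ε : ℝ) (hε : 0 < ε) :
    (∃ K : ℝ, 1 ≤ K ∧ ∃ N₀ : ℕ, ∀ N : ℕ, N₀ ≤ N → ∀ q : ℕ, (N : ℝ) ≤ q * Real.log N ^ a → q ≤ N →
      ∀ (m : ℕ) (b : Fin m → ℕ), (∀ j, b j ≤ T * N) →
      ((m : ℝ) ≤ Real.log N ^ 2 - K * Real.log N →
        (((shifts q b).filter fun s => ¬ (N * Real.exp (-(m / Real.log N)) / K ≤ (lateFailures N s).card ∧
          ((failures N s).card : ℝ) ≤ K * (N * Real.exp (-(m / Real.log N))))).card : ℝ) ≤ ε * (q : ℝ) ^ m) ∧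
      (Real.log N ^ 2 + K * Real.log N ≤ m →
        (((shifts q b).filter fun s => (failures N s).Nonempty).card : ℝ) ≤ ε * (q : ℝ) ^ m) ∧
      (Real.log N ^ 2 + K * Real.log N ≤ m →
        (((shifts q b).filter fun s => K * Real.log N < |(longest N s : ℝ) - Real.log N ^ 2|).card : ℝ) ≤
          ε * (q : ℝ) ^ m)) ∧
    (∀ A : ℝ, ∃ c : ℝ, 0 < c ∧ ∃ N₀ : ℕ, ∀ N : ℕ, N₀ ≤ N → ∀ q : ℕ, (N : ℝ) ≤ q * Real.log N ^ a → q ≤ N →
      ∀ (m : ℕ) (b : Fin m → ℕ), (∀ j, b j ≤ T * N) → (m : ℝ) ≤ Real.log N ^ 2 + A * Real.log N →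
        c * (q : ℝ) ^ m ≤ ((shifts q b).filter fun s => (lateFailures N s).Nonempty).card) := by
  classical
  constructor
  · obtain ⟨e, he⟩ : ∃ e, e = min ε 1 := ⟨_, rfl⟩
    have he0 : 0 < e := by rw [he]; exact lt_min hε one_pos
    have he1 : e ≤ 1 := by rw [he]; exact min_le_right _ _
    have heε : e ≤ ε := by rw [he]; exact min_le_left _ _
    obtain ⟨K1, hK1, h1⟩ := Pool.Agent.Run7.h364.CW.count T a e he0 he1
    obtain ⟨K2, hK2, h2⟩ := Pool.Agent.Run7.h364.CW.above T a e he0
    obtain ⟨K3, hK3, h3⟩ := Pool.Agent.Run7.h364.CW.law T a e he0 he1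
    obtain ⟨K, hK⟩ : ∃ K, K = K1 + K2 + K3 := ⟨_, rfl⟩
    have hK0 : 0 < K := by rw [hK]; linarith
    refine ⟨K, by rw [hK]; linarith, ?_⟩
    obtain ⟨N₀, h⟩ := Filter.eventually_atTop.1 ((h1.and (h2.and (h3 K (by rw [hK]; linarith)))).and
      (Pool.Agent.Run7.h931.RS.ev_log 1))
    refine ⟨N₀, fun N hN q hq hqN m b hb => ?_⟩
    obtain ⟨⟨g1, g2, g3⟩, g4⟩ := h N hN
    have hqm : (0 : ℝ) ≤ (q : ℝ) ^ m := by positivity
    have hfin : e * (q : ℝ) ^ m ≤ ε * (q : ℝ) ^ m := mul_le_mul_of_nonneg_right heε hqm
    have hL0 : 0 < Real.log (N : ℝ) := by linarith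
    have hx : 0 ≤ N * Real.exp (-(m / Real.log N)) := by positivity
    refine ⟨fun hm => ?_, fun hm => ?_, fun hm => (g3 q hq hqN m b hb hm).trans hfin⟩
    · have e1 : K1 * Real.log N ≤ K * Real.log N := mul_le_mul_of_nonneg_right (by rw [hK]; linarith) hL0.le
      refine le_trans ?_ ((g1 q hq hqN m b hb (by linarith)).trans hfin)
      have e2 : ((shifts q b).filter fun s => ¬ (N * Real.exp (-(m / Real.log N)) / K ≤ (lateFailures N s).card ∧
          ((failures N s).card : ℝ) ≤ K * (N * Real.exp (-(m / Real.log N))))) ⊆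
          (Fintype.piFinset fun j => Ioc (b j) (b j + q)).filter fun s =>
            ¬ (N * Real.exp (-(m / Real.log N)) / K1 ≤
              (Pool.Agent.Run7.h931.RS.sv (Pool.Agent.Run7.h364.CW.up N) s).card ∧
            ((Pool.Agent.Run7.h931.RS.sv (Icc 1 N) s).card : ℝ) ≤ K1 * (N * Real.exp (-(m / Real.log N)))) := by
        intro s hs
        rw [mem_filter] at hs ⊢
        refine ⟨hs.1, fun hh => hs.2 ⟨le_trans ?_ hh.1, le_trans hh.2 ?_⟩⟩
        · exact div_le_div_of_nonneg_left hx (by linarith) (by rw [hK]; linarith)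
        · exact mul_le_mul_of_nonneg_right (by rw [hK]; linarith) hx
      exact_mod_cast card_le_card e2
    · have e1 : K2 * Real.log N ≤ K * Real.log N := mul_le_mul_of_nonneg_right (by rw [hK]; linarith) hL0.le
      exact (g2 q hq hqN m b hb (by linarith)).trans hfin
  · intro A
    obtain ⟨c, hc, h⟩ := Pool.Agent.Run7.h364.CW.positive T a A
    obtain ⟨N₀, h⟩ := Filter.eventually_atTop.1 h
    exact ⟨c, hc, N₀, fun N hN q hq hqN m b hb hm => h N hN q hq hqN m b hb hm⟩

end Pool.Agent.Results.MP_45ff98_nt.CriticalLength
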