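import Pool.Agent.Run7.h794.WN.All
import Pool.Agent.N625.PT.C
import Pool.Agent.N625.DY.G

/-!
# Primes in the intervals of all lengths to the right of the points of a translate of an arbitrary set by a random integer with exchangeable blocks of digits

For a random integer `v` whose blocks of digits can be exchanged, with a probability of at least `1 - 1 / log ^ U N`, all the
translates `A + b` of up to `log ^ J N` ARBITRARY sets of at least `N / log ^ C N` integers by all the integers `b` near `c + κ v`
have the expected number `y / log N` of primes in the intervals `(a + b, a + b + y]`, on average over `a ∈ A`, for ALL lengths `y`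
between a power of `log N` and `N`; and for a proportion of more than `1 / 4 - ε` of the `a ∈ A` this interval contains at least
`ε y / log N` primes. The shortest of these intervals have length `log ^ K N` (the problem asks
for a prime in all intervals of length `log ^ 2 x`).

Method: the exponential sum over the ends of a word is bounded by the potential of its beginning times a power of a
number `< 1`; the exponent is the number of the places where the frequency has a digit which is not extremal
(`Pool.Agent.N625.PT`). For one random integer the sum of `G n * (Λ - λ_z) (n + b)` over `n` is then small on average for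
ARBITRARY coefficients `G` (`Pool.Agent.N469.PT`, starting files); we take for `G n` the number of the `a ∈ A` in `[n - y, n)`,
divided by `y`, and use the fundamental lemma of the sieve in the short intervals (`Pool.Agent.H373R2.T7.sys_fund`) for the
sieve model `λ_z`, and Selberg's upper bound function over short intervals (`Pool.Agent.W301.SS`, `Pool.Agent.TH646.TT`)
for the proportion.
-/

set_option autoImplicit false

namespace Pool.Agent.Results.MP_45ff98_nt.ExchangeableTranslates

open Finset

/-- The number of the primes in `(n, n + y]`. -/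
def primesIn (n y : ℕ) : ℕ := ((Ioc n (n + y)).filter Nat.Prime).card

open Classical in
/-- For all integers `y` with `log ^ K N ≤ y ≤ N` the average of `primesIn (a + b) y` over the `a ∈ A` differs from `y / log N` by
at most `ε y / log N`, and at least `(1 / 4 - ε) |A|` elements `a` of `A` have at least `ε y / log N` primes in
`(a + b, a + b + y]`. -/
def Good (ε : ℝ) (K N : ℕ) (A : Finset ℕ) (b : ℕ) : Prop :=
  ∀ y : ℕ, Real.log N ^ K ≤ y → y ≤ N →
    |(∑ a ∈ A, (primesIn (a + b) y : ℝ)) * Real.log N - A.card * y| ≤ ε * (A.card * y) ∧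
    (1 / 4 - ε) * A.card ≤ ((A.filter fun a => ε * y ≤ (primesIn (a + b) y : ℝ) * Real.log N).card : ℝ)

/-- The probability, for the distribution `μ` on the words of `k` digits (the integers `v < b ^ k`), that the word begins with
the `i` digits of `u < b ^ i`. -/
noncomputable def begins (b k : ℕ) (μ : ℕ → ℝ) (i u : ℕ) : ℝ := ∑ w ∈ range (b ^ (k - i)), μ (u * b ^ (k - i) + w)

/-- `p` is a probability on the words of `k` digits in base `b`, read as integers `v < b ^ k`. There is another probability
`μ` with `p ≤ k ^ T μ` such that after every beginning `u` two different blocks `a`, `a'` of `L` digits can be exchanged: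
`p (u a w) = r p (u a' w)` for all endings `w`, with a factor `r` between `η` and `1 / η` which does not depend on `w`; and
given the beginning `u`, each of the two blocks comes next with a probability of at least `η` in the distribution `μ`.
(For `T = 0` one has `μ = p`. For the uniform distribution on a set of words `r` is `1`.) -/
structure Exchangeable (b L : ℕ) (η : ℝ) (T k : ℕ) (p : ℕ → ℝ) : Prop where
  nonneg : ∀ v, 0 ≤ p v
  sum : ∑ v ∈ range (b ^ k), p v = 1
  dominated : ∃ μ : ℕ → ℝ, (∀ v, 0 ≤ μ v) ∧ ∑ v ∈ range (b ^ k), μ v = 1 ∧ (∀ v < b ^ k, p v ≤ (k : ℝ) ^ T * μ v) ∧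
    ∀ i u : ℕ, i + L ≤ k → u < b ^ i → ∃ (a a' : ℕ) (r : ℝ), a < a' ∧ a' < b ^ L ∧ η ≤ r ∧ η * r ≤ 1 ∧
      (∀ w < b ^ (k - (i + L)), p ((b ^ L * u + a) * b ^ (k - (i + L)) + w) = r * p ((b ^ L * u + a') * b ^ (k - (i + L)) + w)) ∧
      η * begins b k μ i u ≤ begins b k μ (i + L) (b ^ L * u + a) ∧
      η * begins b k μ i u ≤ begins b k μ (i + L) (b ^ L * u + a')

lemma begins_sum (b k : ℕ) (μ : ℕ → ℝ) (i u : ℕ) (hi : i < k) :
    ∑ a ∈ range b, begins b k μ (i + 1) (b * u + a) = begins b k μ i u := by
  unfold begins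
  obtain ⟨n, hn⟩ : ∃ n, k - i = n + 1 := ⟨k - i - 1, by omega⟩
  have h1 : k - (i + 1) = n := by omega
  rw [h1, hn, pow_succ, mul_comm (b ^ n) b, Pool.Agent.N625.PT.sum_blocks b (b ^ n)]
  apply sum_congr rfl
  intro a _
  apply sum_congr rfl
  intro w _
  congr 1
  ring

lemma flex_of {b L T k : ℕ} {η : ℝ} {p : ℕ → ℝ} (hp : Exchangeable b L η T k p) : Pool.Agent.N625.PT.Flex b L η T k p := by
  obtain ⟨h0, h1, μ, m0, m1, m2, m3⟩ := hp
  have hT : (0 : ℝ) ≤ (k : ℝ) ^ T := by positivity
  have hb0 : ∀ i u, 0 ≤ begins b k μ i u := fun i u => sum_nonneg fun w _ => m0 _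
  refine ⟨h0, h1, fun i u => (k : ℝ) ^ T * begins b k μ i u, fun i u => mul_nonneg hT (hb0 i u), ?_, ?_, ?_, ?_⟩
  · intro v hv
    refine (m2 v hv).trans (le_of_eq ?_)
    unfold begins
    simp
  · intro i hi u _
    simp only
    rw [← mul_sum, begins_sum b k μ i u hi]
  · simp only
    have : begins b k μ 0 0 = 1 := by
      unfold begins
      simpa using m1
    rw [this, mul_one]
  · intro i u hi hu
    obtain ⟨a, a', r, q1, q2, q3, q4, q5, q6, q7⟩ := m3 i u hi hu
    refine ⟨a, a', r, q1, q2, q3, q4, q5, ?_, ?_⟩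
    · simp only
      calc η * ((k : ℝ) ^ T * begins b k μ i u) = (k : ℝ) ^ T * (η * begins b k μ i u) := by ring
        _ ≤ _ := mul_le_mul_of_nonneg_left q6 hT
    · simp only
      calc η * ((k : ℝ) ^ T * begins b k μ i u) = (k : ℝ) ^ T * (η * begins b k μ i u) := by ring
        _ ≤ _ := mul_le_mul_of_nonneg_left q7 hT

open Classical in
/-- Let a base `b ≥ 2`, a factor `κ ≥ 1`, `L ≥ 1`, `T`, `0 < η ≤ 1`, `B`, `C`, `J`, `W`, `U` and `0 < ε ≤ 1 / 4` be fixed. There is a
number `K` such that the following holds for all large integers `N`. Let the number `k` of digits satisfy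
`N / B ≤ b ^ k ≤ B N`, let `0 ≤ c ≤ B N` be an arbitrary integer, and let `A 1, ..., A j`, `j ≤ log ^ J N`, be ARBITRARY sets of at
least `N / log ^ C N` integers in `[1, N]`. Let `v < b ^ k` be a random integer with an arbitrary exchangeable distribution `p`.
Then, with a probability of at least `1 - 1 / log ^ U N`, the following holds for ALL the integers `1 ≤ m ≤ N` with
`c + κ v ≤ m ≤ c + κ v + log ^ W N`, for all `l ≤ j` and for ALL the lengths `y` with `log ^ K N ≤ y ≤ N`: the average over
`a ∈ A l` of the number of the primes in `(a + m, a + m + y]` differs from `y / log N` by at most `ε y / log N`, and at least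
`(1 / 4 - ε) |A l|` elements `a` of `A l` have at least `ε y / log N` primes in `(a + m, a + m + y]`. -/
theorem result (b : ℕ) (hb : 2 ≤ b) (κ : ℕ) (hκ : 1 ≤ κ) (L T : ℕ) (hL : 1 ≤ L) (η : ℝ) (hη : 0 < η) (hη1 : η ≤ 1)
    (B C J W U : ℕ) (ε : ℝ) (hε : 0 < ε) (hε1 : ε ≤ 1 / 4) :
    ∃ K N₀ : ℕ, ∀ N, N₀ ≤ N → ∀ k : ℕ, b ^ k ≤ B * N → N ≤ B * b ^ k → ∀ c : ℕ, c ≤ B * N →
      ∀ (j : ℕ) (A : Fin j → Finset ℕ), (j : ℝ) ≤ Real.log N ^ J → (∀ l, A l ⊆ Icc 1 N) →
      (∀ l, N / Real.log N ^ C ≤ ((A l).card : ℝ)) →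
      ∀ p : ℕ → ℝ, Exchangeable b L η T k p →
        ∑ v ∈ range (b ^ k),
          (if ∀ m : ℕ, 1 ≤ m → m ≤ N → c + κ * v ≤ m → (m : ℝ) ≤ c + κ * v + Real.log N ^ W → ∀ l, Good ε K N (A l) m
            then 0 else p v) ≤ 1 / Real.log N ^ U := by
  obtain ⟨K, hK⟩ := Pool.Agent.Run7.h794.WN.all_scales
    (L := Pool.Agent.N625.DY.Kc b (4 * B) (Pool.Agent.N625.PT.Flex b L η T)) κ B C J W U ε hε hε1
    (fun V => Pool.Agent.N625.DY.cls_one κ (Pool.Agent.N625.PT.flex_clsV b L hb hL η hη hη1 T (κ : ℤ)
      (by exact_mod_cast (by omega : κ ≠ 0))).toCls (4 * B) (B + 1) V)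
  obtain ⟨N₁, h1⟩ := Filter.eventually_atTop.1 hK
  obtain ⟨N₂, h2⟩ := Filter.eventually_atTop.1 (Pool.Agent.W301.SS.ev_L 1)
  refine ⟨K, N₁ + N₂, fun N hN k hk1 hk2 c hc j A hj hA1 hA2 p hp => ?_⟩
  have hlog : 1 ≤ Real.log N := h2 N (by omega)
  have h := h1 N (by omega) (range (b ^ k)) p ⟨k, by nlinarith, by nlinarith, flex_of hp, rfl⟩ (fun v _ => hp.nonneg v)
    c hc j A hj hA1 (fun l => by
      have h2 := hA2 l
      rwa [div_le_iff₀ (by positivity)] at h2)
  refine le_trans (sum_le_sum fun v _ => ?_) h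
  by_cases h3 : ∀ t : ℕ, (t : ℝ) ≤ Real.log N ^ W → 1 ≤ c + κ * v + t → c + κ * v + t ≤ N →
      ∀ l, Pool.Agent.Run7.h794.WN.Good ε K N (A l) (c + κ * v + t)
  · rw [if_neg (not_not.2 h3), if_pos]
    intro m hm1 hm2 hm3 hm4 l
    obtain ⟨t, ht⟩ : ∃ t, m = c + κ * v + t := ⟨m - (c + κ * v), by omega⟩
    have h4 := h3 t (by
      rw [ht] at hm4
      push_cast at hm4
      linarith) (by omega) (by omega) l
    rw [← ht] at h4
    intro z hz1 hz2
    obtain ⟨h5, h6⟩ := h4 z hz1 hz2
    refine ⟨h5, le_trans h6 (le_of_eq ?_)⟩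
    unfold Pool.Agent.W301.SS.GG
    rfl
  · rw [if_pos h3]
    split_ifs
    · exact hp.nonneg v
    · exact le_rfl

end Pool.Agent.Results.MP_45ff98_nt.ExchangeableTranslates
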